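import Mathlib
import Pool.Agent.Helper56.CP.Stmts

set_option autoImplicit false

/-!
Module SIV of the project on cluster primes: Brun's pure sieve for prime tuples, uniformly in the size
of the tuple.
-/

open Finset Filter Topology

namespace Pool.Agent.Helper56.CP

theorem SIV_ev_pow (n : ℕ) (A c : ℝ) (hA : 0 ≤ A) (hc : 0 < c) :
    ∀ᶠ L : ℝ in atTop, A * L ^ n ≤ c * Real.exp L := by
  have h1 : (fun x : ℝ => x ^ n) =o[atTop] Real.exp := Real.isLittleO_pow_exp_atTop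
  have hpos : 0 < c / (A + 1) := by positivity
  have h2 := h1.def hpos
  filter_upwards [h2, eventually_ge_atTop (0 : ℝ)] with L hL hL0
  rw [Real.norm_of_nonneg (by positivity), Real.norm_of_nonneg (Real.exp_pos L).le] at hL
  have hA1 : 0 < A + 1 := by linarith
  have h3 : (A + 1) * L ^ n ≤ c * Real.exp L := by
    calc (A + 1) * L ^ n ≤ (A + 1) * (c / (A + 1) * Real.exp L) :=
          mul_le_mul_of_nonneg_left hL hA1.le
      _ = c * Real.exp L := by field_simp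
  have h4 : 0 ≤ L ^ n := by positivity
  nlinarith

theorem SIV_ev_log (c : ℝ) (hc : 0 < c) :
    ∀ᶠ L : ℝ in atTop, Real.log L ≤ c * L := by
  have h1 : Real.log =o[atTop] (id : ℝ → ℝ) := Real.isLittleO_log_id_atTop
  have h2 := h1.def hc
  filter_upwards [h2, eventually_ge_atTop (1 : ℝ)] with L hL hL0
  rw [Real.norm_of_nonneg (Real.log_nonneg hL0)] at hL
  simp only [id, Real.norm_eq_abs] at hL
  rwa [abs_of_nonneg (by linarith)] at hL

/-- The power over the factorial. -/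
theorem SIV_fact (a C L : ℝ) (n : ℕ) (ha : 0 ≤ a) (hC : 0 ≤ C) (haU : a ≤ 2 * C * L ^ 2)
    (hn : 16 * C * L ^ 2 ≤ n) : a ^ n / (n.factorial : ℝ) ≤ Real.exp (- (C * L ^ 2)) := by
  have h1 := Real.pow_div_factorial_le_exp (a * Real.exp 1) (by positivity) n
  have h2 : (a * Real.exp 1) ^ n / (n.factorial : ℝ) = a ^ n / (n.factorial : ℝ) * Real.exp n := by
    rw [mul_pow, ← Real.exp_nat_mul, mul_one]
    ring
  rw [h2] at h1
  have h3 : a ^ n / (n.factorial : ℝ) ≤ Real.exp (a * Real.exp 1 - n) := by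
    rw [Real.exp_sub, le_div_iff₀ (Real.exp_pos _)]
    exact h1
  refine h3.trans (Real.exp_le_exp.mpr ?_)
  have he : Real.exp 1 ≤ 3 := by
    have := Real.exp_one_lt_d9
    linarith
  have h4 : a * Real.exp 1 ≤ 2 * C * L ^ 2 * 3 :=
    mul_le_mul haU he (Real.exp_pos _).le (by positivity)
  have h5 : 0 ≤ C * L ^ 2 := by positivity
  linarith

/-- Bundled growth conditions. -/
theorem SIV_ev (C C₁ : ℝ) (hC : 1 ≤ C) (_hC₁ : 0 ≤ C₁) : ∀ᶠ L : ℝ in atTop,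
    10 ≤ L ∧ 600 * C * L ^ 7 ≤ Real.exp L ∧ 5 * Real.log L ≤ L ∧ 2 * C ^ 3 ≤ L ∧
    Real.log (600 * C) + C₁ + 1 ≤ Real.log L ∧ C₁ ≤ L ∧
    17 * C ^ 2 * L ^ 3 ≤ 13 / 300 * Real.exp L ∧ C * L ≤ 1 / 10 * Real.exp L ∧
    C * L ^ 2 ≤ 1 / 2 * Real.exp L ∧ 5 ≤ L * Real.log L := by
  have e2 := SIV_ev_pow 7 (600 * C) 1 (by positivity) one_pos
  have e3 := SIV_ev_log (1 / 5) (by norm_num)
  have e5 : ∀ᶠ L : ℝ in atTop, Real.log (600 * C) + C₁ + 1 ≤ Real.log L :=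
    Real.tendsto_log_atTop.eventually (eventually_ge_atTop _)
  have e7 := SIV_ev_pow 3 (17 * C ^ 2) (13 / 300) (by positivity) (by norm_num)
  have e8 := SIV_ev_pow 1 C (1 / 10) (by positivity) (by norm_num)
  have e9 := SIV_ev_pow 2 C (1 / 2) (by positivity) (by norm_num)
  have e10 : ∀ᶠ L : ℝ in atTop, 1 ≤ Real.log L :=
    Real.tendsto_log_atTop.eventually (eventually_ge_atTop _)
  filter_upwards [eventually_ge_atTop (10 : ℝ), e2, e3, eventually_ge_atTop (2 * C ^ 3), e5,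
    eventually_ge_atTop C₁, e7, e8, e9, e10] with L h1 h2 h3 h4 h5 h6 h7 h8 h9 h10
  refine ⟨h1, by linarith, by linarith, h4, h5, h6, h7, by simpa using h8, h9, ?_⟩
  nlinarith

theorem SIV_final (C L P U V X W : ℝ) (x : ℝ) (_hx : x = Real.exp (Real.exp L)) (_hL : 10 ≤ L)
    (_hX0 : 0 ≤ X) (_hV : 0 ≤ V) (h : U ≤ 3 * X + (x + 1) * (V + V) + X)
    (hX : 4 * X ≤ x * V) (hx1 : 1 ≤ x) (hVP : 5 * V ≤ P) (hW : W = x * P) (_hC : 1 ≤ C) :
    U ≤ W := by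
  rw [hW]
  have h1 : (x + 1) * (V + V) ≤ 4 * (x * V) := by nlinarith
  have h2 : x * (5 * V) ≤ x * P := mul_le_mul_of_nonneg_left hVP (by linarith)
  linarith

theorem SIV_a1 (C L : ℝ) (hC : 1 ≤ C) (hL : 10 ≤ L) : 100 ≤ C * L ^ 2 := by
  have h1 : 100 ≤ L ^ 2 := by nlinarith
  nlinarith

theorem SIV_a2 (C L : ℝ) (hC : 1 ≤ C) (hL : 10 ≤ L) (h4 : 2 * C ^ 3 ≤ L) : C * L ≤ L ^ 4 := by
  have h11 : C ≤ C ^ 3 := le_self_pow₀ hC (by norm_num)
  have h12 : C ≤ L := by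
    have : 0 ≤ C ^ 3 := by positivity
    linarith
  have h13 : C * L ≤ L * L := mul_le_mul_of_nonneg_right h12 (by linarith)
  have h14 : L * L * 1 ≤ L * L * (L * L) :=
    mul_le_mul_of_nonneg_left (by nlinarith) (by positivity)
  have h15 : L ^ 4 = L * L * (L * L) := by ring
  linarith

theorem SIV_a3 (C L s : ℝ) (hC : 1 ≤ C) (hL : 10 ≤ L) (h4 : 2 * C ^ 3 ≤ L) (hs1 : 1 ≤ s)
    (hs : s ≤ C * L) : 2 * s ^ 2 * (C * L) ≤ L ^ 4 := by
  have h11 : s ^ 2 ≤ (C * L) ^ 2 := pow_le_pow_left₀ (by linarith) hs 2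
  have h0 : 0 ≤ C * L := by positivity
  have h12 : s ^ 2 * (2 * (C * L)) ≤ (C * L) ^ 2 * (2 * (C * L)) :=
    mul_le_mul_of_nonneg_right h11 (by linarith)
  have h13 : (C * L) ^ 2 * (2 * (C * L)) = 2 * C ^ 3 * L ^ 3 := by ring
  have h14 : 2 * C ^ 3 * L ^ 3 ≤ L * L ^ 3 := mul_le_mul_of_nonneg_right h4 (by positivity)
  have h15 : L * L ^ 3 = L ^ 4 := by ring
  have h16 : s ^ 2 * (2 * (C * L)) = 2 * s ^ 2 * (C * L) := by ring
  linarith

theorem SIV_a4 (C L s σ l : ℝ) (hl : 0 ≤ l) (hs1 : 1 ≤ s) (hs : s ≤ C * L)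
    (hσ : L - 4 * l ≤ σ) : s * L - 4 * C * (L * l) ≤ s * σ := by
  have h11 : s * (L - 4 * l) ≤ s * σ := mul_le_mul_of_nonneg_left hσ (by linarith)
  have h12 : s * l ≤ C * L * l := mul_le_mul_of_nonneg_right hs hl
  have h13 : s * (L - 4 * l) = s * L - 4 * (s * l) := by ring
  have h14 : 4 * C * (L * l) = 4 * (C * L * l) := by ring
  linarith

/-- The level `y`. -/
theorem SIV_y (E : ℝ) (hE : 2 ≤ E) : ((⌊Real.exp E⌋₊ : ℕ) : ℝ) ≤ Real.exp E ∧
    Real.exp (E / 2) ≤ ((⌊Real.exp E⌋₊ : ℕ) : ℝ) := by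
  refine ⟨Nat.floor_le (Real.exp_pos _).le, ?_⟩
  have h11 : Real.exp E < ((⌊Real.exp E⌋₊ : ℕ) : ℝ) + 1 := Nat.lt_floor_add_one _
  have h12 : E / 2 + 1 ≤ Real.exp (E / 2) := Real.add_one_le_exp _
  have h13 : Real.exp E = Real.exp (E / 2) * Real.exp (E / 2) := by
    rw [← Real.exp_add]
    congr 1
    ring
  have h14 : 2 ≤ Real.exp (E / 2) := by linarith
  have h15 : 2 * Real.exp (E / 2) ≤ Real.exp (E / 2) * Real.exp (E / 2) :=
    mul_le_mul_of_nonneg_right h14 (Real.exp_pos _).le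
  linarith

/-- The level `y0`. -/
theorem SIV_y0 (L : ℝ) (hL : 10 ≤ L) (h3 : 5 * Real.log L ≤ L) :
    L ^ 4 ≤ ((⌈L ^ 4⌉₊ : ℕ) : ℝ) ∧ ((⌈L ^ 4⌉₊ : ℕ) : ℝ) ≤ L ^ 5 ∧ 10 ≤ L ^ 4 ∧
    Real.log (Real.log ((⌈L ^ 4⌉₊ : ℕ) : ℝ)) ≤ Real.log L := by
  have hL4 : (10 : ℝ) ≤ L ^ 4 := by
    calc (10 : ℝ) ≤ 10 ^ 4 := by norm_num
      _ ≤ L ^ 4 := pow_le_pow_left₀ (by norm_num) hL 4
  have hlo : L ^ 4 ≤ ((⌈L ^ 4⌉₊ : ℕ) : ℝ) := Nat.le_ceil _
  have hup : ((⌈L ^ 4⌉₊ : ℕ) : ℝ) ≤ L ^ 5 := by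
    have h11 : ((⌈L ^ 4⌉₊ : ℕ) : ℝ) < L ^ 4 + 1 := Nat.ceil_lt_add_one (by positivity)
    have h12 : L ^ 5 = L ^ 4 * L := by ring
    have h13 : L ^ 4 * 10 ≤ L ^ 4 * L := mul_le_mul_of_nonneg_left hL (by positivity)
    linarith
  refine ⟨hlo, hup, hL4, ?_⟩
  have hy0pos : 0 < ((⌈L ^ 4⌉₊ : ℕ) : ℝ) := by linarith
  have hlogy0 : Real.log ((⌈L ^ 4⌉₊ : ℕ) : ℝ) ≤ 5 * Real.log L := by
    have h11 := Real.log_le_log hy0pos hup
    rw [Real.log_pow] at h11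
    exact_mod_cast h11
  have hlogy0pos : 0 < Real.log ((⌈L ^ 4⌉₊ : ℕ) : ℝ) := by
    apply Real.log_pos
    linarith
  apply Real.log_le_log hlogy0pos
  linarith

/-- The iterated logarithm of `y`. -/
theorem SIV_lly (C L E Y : ℝ) (hC : 1 ≤ C) (hL : 10 ≤ L) (hE : E = Real.exp L / (300 * C * L ^ 2))
    (hE3 : 2 ≤ E) (hEl : E ≤ Real.exp L / 300) (hy1 : Y ≤ Real.exp E) (hy2 : Real.exp (E / 2) ≤ Y) :
    L - 2 * Real.log L - Real.log (600 * C) ≤ Real.log (Real.log Y) ∧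
    Real.log (Real.log Y) ≤ L := by
  have hYpos : 0 < Y := lt_of_lt_of_le (Real.exp_pos _) hy2
  have hlogy1 : E / 2 ≤ Real.log Y := by
    rw [Real.le_log_iff_exp_le hYpos]
    exact hy2
  have hlogy2 : Real.log Y ≤ E := by
    rw [Real.log_le_iff_le_exp hYpos]
    exact hy1
  have hEpos : 0 < E := by linarith
  constructor
  · have h11 : Real.log (E / 2) ≤ Real.log (Real.log Y) := Real.log_le_log (by positivity) hlogy1
    have h12 : E / 2 = Real.exp L / ((600 * C) * L ^ 2) := by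
      rw [hE]
      field_simp
      ring
    rw [h12, Real.log_div (Real.exp_pos _).ne' (by positivity), Real.log_exp,
      Real.log_mul (by positivity) (by positivity), Real.log_pow] at h11
    push_cast at h11
    linarith
  · have h11 : Real.log Y ≤ Real.exp L := by
      have := Real.exp_pos L
      linarith
    have h12 : 0 < Real.log Y := by linarith
    rw [Real.log_le_iff_le_exp h12]
    exact h11

/-- The power. -/
theorem SIV_pow (C L E s Y : ℝ) (k : ℕ) (hC : 1 ≤ C) (hL : 10 ≤ L) (hE3 : 2 ≤ E)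
    (hE2 : E * (C * L ^ 2) = Real.exp L / 300) (hs1 : 1 ≤ s) (hs : s ≤ C * L) (hY : 0 ≤ Y)
    (hy1 : Y ≤ Real.exp E) (hk : 2 * (k : ℝ) ≤ 17 * (C * L ^ 2))
    (h7 : 17 * C ^ 2 * L ^ 3 ≤ 13 / 300 * Real.exp L) :
    (1 + s * Y) ^ (2 * k) ≤ Real.exp (1 / 10 * Real.exp L) := by
  have h11 : 1 + s * Y ≤ Real.exp (C * L + E) := by
    have h12 : (1 : ℝ) ≤ Real.exp E := Real.one_le_exp (by linarith)
    have h13 : s * Y ≤ C * L * Real.exp E := mul_le_mul hs hy1 hY (by positivity)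
    have h14 : C * L + 1 ≤ Real.exp (C * L) := Real.add_one_le_exp _
    have h15 : (C * L + 1) * Real.exp E ≤ Real.exp (C * L) * Real.exp E :=
      mul_le_mul_of_nonneg_right h14 (Real.exp_pos _).le
    rw [Real.exp_add]
    linarith
  have h16 : 0 ≤ 1 + s * Y := by
    have : 0 ≤ s * Y := mul_nonneg (by linarith) hY
    linarith
  refine (pow_le_pow_left₀ h16 h11 (2 * k)).trans ?_
  rw [← Real.exp_nat_mul]
  apply Real.exp_le_exp.mpr
  push_cast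
  have h18 : 2 * (k : ℝ) * (C * L + E) ≤ 17 * (C * L ^ 2) * (C * L + E) :=
    mul_le_mul_of_nonneg_right hk (by positivity)
  have h19 : 17 * (C * L ^ 2) * (C * L + E) =
      17 * C ^ 2 * L ^ 3 + 17 * (E * (C * L ^ 2)) := by ring
  rw [h19, hE2] at h18
  linarith

/-- The main term against the error terms. -/
theorem SIV_main (C L s x : ℝ) (hC : 1 ≤ C) (hL : 10 ≤ L) (hs1 : 1 ≤ s)
    (hsL : s * L ≤ C * L ^ 2) (hx : x = Real.exp (Real.exp L))
    (h9 : C * L ^ 2 ≤ 1 / 2 * Real.exp L) (h10 : 5 ≤ L * Real.log L) :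
    4 * Real.exp (1 / 10 * Real.exp L) ≤
      x * Real.exp (- (s * L) + 4 * C * (L * Real.log L)) ∧
    5 * Real.exp (- (s * L) + 4 * C * (L * Real.log L)) ≤
      Real.exp (- (s * L) + (4 * C + 1) * (L * Real.log L)) := by
  have hCl : 0 ≤ 4 * C * (L * Real.log L) := by
    apply mul_nonneg (by linarith) (by linarith)
  constructor
  · have h11 : (1 : ℝ) / 2 * Real.exp L ≤
        Real.exp L + (- (s * L) + 4 * C * (L * Real.log L)) := by linarith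
    have h12 : Real.exp (1 / 2 * Real.exp L) ≤
        x * Real.exp (- (s * L) + 4 * C * (L * Real.log L)) := by
      rw [hx, ← Real.exp_add]
      exact Real.exp_le_exp.mpr h11
    have h13 : Real.exp (1 / 2 * Real.exp L) =
        Real.exp (4 / 10 * Real.exp L) * Real.exp (1 / 10 * Real.exp L) := by
      rw [← Real.exp_add]
      congr 1
      ring
    have h14 : 4 ≤ Real.exp (4 / 10 * Real.exp L) := by
      have h15 : L + 1 ≤ Real.exp L := Real.add_one_le_exp _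
      have h16 : 4 / 10 * Real.exp L + 1 ≤ Real.exp (4 / 10 * Real.exp L) := Real.add_one_le_exp _
      linarith
    have h17 : 4 * Real.exp (1 / 10 * Real.exp L) ≤
        Real.exp (4 / 10 * Real.exp L) * Real.exp (1 / 10 * Real.exp L) :=
      mul_le_mul_of_nonneg_right h14 (Real.exp_pos _).le
    linarith
  · have h11 : - (s * L) + (4 * C + 1) * (L * Real.log L) =
        L * Real.log L + (- (s * L) + 4 * C * (L * Real.log L)) := by ring
    rw [h11, Real.exp_add (L * Real.log L)]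
    apply mul_le_mul_of_nonneg_right _ (Real.exp_pos _).le
    have := Real.add_one_le_exp (L * Real.log L)
    linarith

/-- The estimate, with all the growth conditions as hypotheses. -/
theorem SIV_core (C C₁ : ℝ) (hC : 1 ≤ C) (hC₁ : 0 ≤ C₁)
    (hQ : ∀ (S : Finset ℕ) (y0 y : ℕ) (H : ℝ), 2 ≤ y0 → y0 ≤ y →
      1 ≤ H → (∀ a ∈ S, (a : ℝ) ≤ H) →
      Real.log (Real.log y) - Real.log (Real.log y0) - C₁ - 2 * (S.card : ℝ) ^ 2 * Real.log H / y0 ≤
        ∑ l ∈ SQ S y0 y, 1 / (l : ℝ) ∧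
      ∑ l ∈ SQ S y0 y, 1 / (l : ℝ) ≤ Real.log (Real.log y) + C₁)
    (hS : ST_SC) (x : ℕ) (S : Finset ℕ) (L : ℝ) (hx : (x : ℝ) = Real.exp (Real.exp L))
    (hne : S.Nonempty) (hs : (S.card : ℝ) ≤ C * L) (hH : ∀ a ∈ S, (a : ℝ) ≤ Real.exp (C * L))
    (h1 : 10 ≤ L) (h2 : 600 * C * L ^ 7 ≤ Real.exp L) (h3 : 5 * Real.log L ≤ L)
    (h4 : 2 * C ^ 3 ≤ L) (h5 : Real.log (600 * C) + C₁ + 1 ≤ Real.log L) (h6 : C₁ ≤ L)
    (h7 : 17 * C ^ 2 * L ^ 3 ≤ 13 / 300 * Real.exp L) (h8 : C * L ≤ 1 / 10 * Real.exp L)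
    (h9 : C * L ^ 2 ≤ 1 / 2 * Real.exp L) (h10 : 5 ≤ L * Real.log L) :
    (((range (x + 1)).filter (fun n => ∀ a ∈ S, (n - a).Prime)).card : ℝ) ≤
      x * Real.exp (- (S.card * L) + (4 * C + 1) * (L * Real.log L)) := by
  have hL0 : 0 < L := by linarith
  have hC0 : 0 < C := by linarith
  have hs1 : 1 ≤ (S.card : ℝ) := by
    exact_mod_cast Finset.card_pos.mpr hne
  have hEx : ∃ E : ℝ, E = Real.exp L / (300 * C * L ^ 2) := ⟨_, rfl⟩
  obtain ⟨E, hE⟩ := hEx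
  have hEpos : 0 < E := by rw [hE]; positivity
  have hE2 : 2 * L ^ 5 ≤ E := by
    rw [hE, le_div_iff₀ (by positivity)]
    calc 2 * L ^ 5 * (300 * C * L ^ 2) = 600 * C * L ^ 7 := by ring
      _ ≤ Real.exp L := h2
  have hL5 : 10 ≤ L ^ 5 := by
    calc (10 : ℝ) ≤ 10 ^ 5 := by norm_num
      _ ≤ L ^ 5 := pow_le_pow_left₀ (by norm_num) h1 5
  have hE3 : 2 ≤ E := by linarith
  have hCL2 := SIV_a1 C L hC h1
  have hElow : E ≤ Real.exp L / 300 := by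
    rw [hE]
    apply div_le_div_of_nonneg_left (Real.exp_pos L).le (by norm_num)
    linarith
  have hElowL : E * (C * L ^ 2) = Real.exp L / 300 := by
    rw [hE]
    field_simp
  -- the level `y`
  obtain ⟨hyU, hyL⟩ := SIV_y E hE3
  obtain ⟨hy0L, hy0U, hL4, hll0⟩ := SIV_y0 L h1 h3
  have hyx : ∃ y : ℕ, y = ⌊Real.exp E⌋₊ := ⟨_, rfl⟩
  have hy0x : ∃ y0 : ℕ, y0 = ⌈L ^ 4⌉₊ := ⟨_, rfl⟩
  obtain ⟨y, hy⟩ := hyx
  obtain ⟨y0, hy0⟩ := hy0x
  rw [← hy] at hyU hyL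
  rw [← hy0] at hy0L hy0U hll0
  have hypos : 0 < (y : ℝ) := lt_of_lt_of_le (Real.exp_pos _) hyL
  have hy0pos : 0 < (y0 : ℝ) := by linarith
  have hy02 : 2 ≤ y0 := by
    have : (2 : ℝ) ≤ y0 := by linarith
    exact_mod_cast this
  have hy0y : y0 ≤ y := by
    have h11 : E / 2 + 1 ≤ Real.exp (E / 2) := Real.add_one_le_exp _
    have : (y0 : ℝ) ≤ y := by linarith
    exact_mod_cast this
  have hCL4 := SIV_a2 C L hC h1 h4
  have hsy0 : S.card ≤ y0 := by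
    have : (S.card : ℝ) ≤ y0 := by linarith
    exact_mod_cast this
  -- the sum over the sieving primes
  have hH1 : 1 ≤ Real.exp (C * L) := Real.one_le_exp (by positivity)
  obtain ⟨hlo, hup⟩ := hQ S y0 y (Real.exp (C * L)) hy02 hy0y hH1 hH
  have hmain := hS S y0 y x ⌈8 * C * L ^ 2⌉₊ (Real.exp (C * L)) hne hsy0 hH
  have hσx : ∃ σ : ℝ, σ = ∑ l ∈ SQ S y0 y, 1 / (l : ℝ) := ⟨_, rfl⟩
  have hσ0 : 0 ≤ ∑ l ∈ SQ S y0 y, 1 / (l : ℝ) := Finset.sum_nonneg (fun l _ => by positivity)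
  obtain ⟨σ, hσ⟩ := hσx
  rw [← hσ] at hlo hup hmain hσ0
  rw [Real.log_exp] at hlo
  have hsx : ∃ s : ℝ, s = (S.card : ℝ) := ⟨_, rfl⟩
  obtain ⟨s, hsdef⟩ := hsx
  rw [← hsdef] at hlo hmain hs hs1 ⊢
  clear hQ hS
  obtain ⟨hloglogy1, hloglogy2⟩ := SIV_lly C L E y hC h1 hE hE3 hElow hyU hyL
  have herr : 2 * s ^ 2 * (C * L) / y0 ≤ 1 := by
    rw [div_le_one hy0pos]
    exact (SIV_a3 C L s hC h1 h4 hs1 hs).trans hy0L
  have hσlow : L - 4 * Real.log L ≤ σ := by linarith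
  have hσup : σ ≤ 2 * L := by linarith
  have hlogL : 0 ≤ Real.log L := Real.log_nonneg (by linarith)
  have hsσlow := SIV_a4 C L s σ (Real.log L) hlogL hs1 hs hσlow
  have hsσup : s * σ ≤ 2 * C * L ^ 2 := by
    have h11 : s * σ ≤ (C * L) * (2 * L) := mul_le_mul hs hσup hσ0 (by positivity)
    linarith
  have hsL : s * L ≤ C * L ^ 2 := by
    have h11 : s * L ≤ (C * L) * L := mul_le_mul_of_nonneg_right hs hL0.le
    linarith
  -- the sieve
  have hkL : 8 * C * L ^ 2 ≤ ((⌈8 * C * L ^ 2⌉₊ : ℕ) : ℝ) := Nat.le_ceil _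
  have hkU : ((⌈8 * C * L ^ 2⌉₊ : ℕ) : ℝ) < 8 * C * L ^ 2 + 1 :=
    Nat.ceil_lt_add_one (by positivity)
  have hkx : ∃ k : ℕ, k = ⌈8 * C * L ^ 2⌉₊ := ⟨_, rfl⟩
  obtain ⟨k, hk⟩ := hkx
  rw [← hk] at hkL hkU hmain
  have hfac : (s * σ) ^ (2 * k + 1) / ((2 * k + 1).factorial : ℝ) ≤ Real.exp (- (C * L ^ 2)) := by
    apply SIV_fact (s * σ) C L (2 * k + 1) (mul_nonneg (by linarith) hσ0) hC0.le hsσup
    push_cast
    linarith
  have hLlog0 : 0 ≤ C * (L * Real.log L) := by positivity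
  have hV1 : Real.exp (- (s * σ)) ≤ Real.exp (- (s * L) + 4 * C * (L * Real.log L)) := by
    apply Real.exp_le_exp.mpr
    linarith
  have hV2 : (s * σ) ^ (2 * k + 1) / ((2 * k + 1).factorial : ℝ) ≤
      Real.exp (- (s * L) + 4 * C * (L * Real.log L)) := by
    refine hfac.trans ?_
    apply Real.exp_le_exp.mpr
    linarith
  have hpow := SIV_pow C L E s y k hC h1 hE3 hElowL hs1 hs hypos.le hyU (by linarith) h7
  have hsum1 : (y : ℝ) + Real.exp (C * L) + 1 ≤ 3 * Real.exp (1 / 10 * Real.exp L) := by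
    have h11 : Real.exp E ≤ Real.exp (1 / 10 * Real.exp L) := by
      apply Real.exp_le_exp.mpr
      have := Real.exp_pos L
      linarith
    have h12 : Real.exp (C * L) ≤ Real.exp (1 / 10 * Real.exp L) := Real.exp_le_exp.mpr h8
    have h13 : 1 ≤ Real.exp (1 / 10 * Real.exp L) := Real.one_le_exp (by positivity)
    linarith
  have hx1 : 1 ≤ (x : ℝ) := by
    rw [hx]
    exact Real.one_le_exp (Real.exp_pos L).le
  have hmid : ((x : ℝ) + 1) * (Real.exp (- (s * σ)) +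
      (s * σ) ^ (2 * k + 1) / ((2 * k + 1).factorial : ℝ)) ≤
      ((x : ℝ) + 1) * (Real.exp (- (s * L) + 4 * C * (L * Real.log L)) +
        Real.exp (- (s * L) + 4 * C * (L * Real.log L))) :=
    mul_le_mul_of_nonneg_left (add_le_add hV1 hV2) (by linarith)
  obtain ⟨h4X, h5V⟩ := SIV_main C L s x hC h1 hs1 hsL hx h9 h10
  have hfin := add_le_add (add_le_add hsum1 hmid) hpow
  exact SIV_final C L (Real.exp (- (s * L) + (4 * C + 1) * (L * Real.log L)))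
    _ (Real.exp (- (s * L) + 4 * C * (L * Real.log L))) (Real.exp (1 / 10 * Real.exp L)) _ x hx h1
    (Real.exp_pos _).le (Real.exp_pos _).le (hmain.trans hfin) h4X hx1 h5V rfl hC

theorem st_SIV (hQ : ST_SQS) (hS : ST_SC) : ST_SIV := by
  intro C hC
  obtain ⟨C₁, hC₁, hQ⟩ := hQ
  have hev := SIV_ev C C₁ hC hC₁
  have hlog2 : Tendsto (fun x : ℝ => Real.log (Real.log x)) atTop atTop :=
    Real.tendsto_log_atTop.comp Real.tendsto_log_atTop
  have hev2 := hlog2.eventually hev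
  obtain ⟨x₁, hx₁⟩ := eventually_atTop.mp (hev2.and (eventually_gt_atTop (1 : ℝ)))
  refine ⟨4 * C + 1, x₁, ?_⟩
  intro x S hx hne hcard hH
  obtain ⟨⟨h1, h2, h3, h4, h5, h6, h7, h8, h9, h10⟩, hx1⟩ := hx₁ x hx
  have hlogx : 0 < Real.log x := Real.log_pos hx1
  have hxe : (x : ℝ) = Real.exp (Real.exp (Real.log (Real.log x))) := by
    rw [Real.exp_log hlogx, Real.exp_log (by linarith)]
  have hHe : (Real.log x) ^ C = Real.exp (C * Real.log (Real.log x)) := by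
    rw [Real.rpow_def_of_pos hlogx, mul_comm]
  rw [hHe] at hH
  exact SIV_core C C₁ hC hC₁ hQ hS x S (Real.log (Real.log x)) hxe hne hcard hH h1 h2 h3 h4 h5 h6 h7
    h8 h9 h10

end Pool.Agent.Helper56.CP
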